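import Mathlib
import Pool.Agent.W120.WM.Defs2

set_option autoImplicit false

open MeasureTheory Filter Topology Set

namespace Pool.Agent.W285.WM

open Pool.Agent.H24R2.JP (XX)
open Pool.Agent.W120.WM

theorem norm_mk_pos_of_re {x y : ℝ} (hx : 0 < x) : 0 < ‖(⟨x, y⟩ : ℂ)‖ := by
  rw [norm_pos_iff]
  intro h
  have := congrArg Complex.re h
  simp at this
  exact hx.ne' this

theorem geo {θ p q Ap Aq : ℝ} (hp : 0 < p) (hq : 0 < q) (hAp : 0 < Ap) (hAq : 0 < Aq) :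
    (4 * p / Ap) ^ θ * (4 * q / Aq) ^ (1 - θ) =
      4 * (p ^ θ * q ^ (1 - θ)) / (Ap ^ θ * Aq ^ (1 - θ)) := by
  rw [Real.div_rpow (by positivity) hAp.le, Real.div_rpow (by positivity) hAq.le,
    Real.mul_rpow (by norm_num) hp.le, Real.mul_rpow (by norm_num) hq.le]
  have h4 : (4 : ℝ) ^ θ * (4 : ℝ) ^ (1 - θ) = 4 := by
    rw [← Real.rpow_add (by norm_num)]
    simp
  rw [div_mul_div_comm]
  congr 1
  calc (4 : ℝ) ^ θ * p ^ θ * (4 ^ (1 - θ) * q ^ (1 - θ))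
      = (4 ^ θ * 4 ^ (1 - θ)) * (p ^ θ * q ^ (1 - θ)) := by ring
    _ = _ := by rw [h4]

theorem main (h1 : U_LINK) (h2 : U_KEY) (h3 : U_STIR) (h4 : U_SHIFT) (h5 : U_DBL)
    (h6 : U_INTERP) : U_PT := by
  intro hRH
  obtain ⟨C1, hC1, hS⟩ := h3
  obtain ⟨C2, hC2, hSh⟩ := h4
  obtain ⟨-, C0, hC0, hD⟩ := h5 hRH
  obtain ⟨C3, hC3, hI⟩ := h6 C0 hC0
  refine ⟨C2 * Real.exp (2 * C1 + C3), by positivity, ?_⟩
  intro a b t δ hab hat htb hδ hδ2 hda hdb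
  set θ : ℝ := (b - t) / (b - a) with hθ
  have hba : 0 < b - a := by linarith
  have hθm : θ * (b - a) = b - t := by rw [hθ]; field_simp
  have hθ0 : 0 ≤ θ := div_nonneg (by linarith) hba.le
  have hθ1 : θ ≤ 1 := by rw [hθ, div_le_one hba]; linarith
  obtain ⟨hD1, hD2, hD3⟩ := hD a b hab
  have hph := hI a b t θ hat htb hθm hD1 hD2 hD3
  have hKEY := h2 hRH a b t δ θ hab hat htb hδ.le hθm
  obtain ⟨hWa, hWa'⟩ := hS a
  obtain ⟨hWb, hWb'⟩ := hS b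
  obtain ⟨hWt, hWt'⟩ := hS t
  have hsh := hSh δ t hδ.le hδ2.le
  -- the quantities
  have hP : 0 < ‖(⟨δ, t - a⟩ : ℂ)‖ := norm_mk_pos_of_re hδ
  have hQ : 0 < ‖(⟨δ, t - b⟩ : ℂ)‖ := norm_mk_pos_of_re hδ
  have hN : 0 < ‖(⟨1 / 2 + δ, t⟩ : ℂ)‖ := norm_mk_pos_of_re (by linarith)
  have hNa : 0 < ‖(⟨1 / 2, a⟩ : ℂ)‖ := norm_mk_pos_of_re (by norm_num)
  have hNb : 0 < ‖(⟨1 / 2, b⟩ : ℂ)‖ := norm_mk_pos_of_re (by norm_num)
  have hda' : 0 < ‖deriv riemannZeta (⟨1 / 2, a⟩ : ℂ)‖ := norm_pos_iff.mpr hda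
  have hdb' : 0 < ‖deriv riemannZeta (⟨1 / 2, b⟩ : ℂ)‖ := norm_pos_iff.mpr hdb
  have hAa : 0 < Ac a := by
    unfold Ac; rw [norm_mul]; positivity
  have hAb : 0 < Ac b := by
    unfold Ac; rw [norm_mul]; positivity
  have hXa : ‖deriv XX (⟨0, a⟩ : ℂ)‖ = 4 * Wg 0 a / Ac a := by
    rw [h1.2.2 a hab.2.1]
    unfold Ac
    rw [norm_mul]
    field_simp
  have hXb : ‖deriv XX (⟨0, b⟩ : ℂ)‖ = 4 * Wg 0 b / Ac b := by
    rw [h1.2.2 b hab.2.2.1]
    unfold Ac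
    rw [norm_mul]
    field_simp
  rw [hXa, hXb, geo hWa hWb hAa hAb, h1.2.1 δ t hδ.le hδ2] at hKEY
  set G : ℝ := Wg 0 a ^ θ * Wg 0 b ^ (1 - θ) with hG
  set B : ℝ := Ac a ^ θ * Ac b ^ (1 - θ) with hB
  have hGpos : 0 < G := by positivity
  have hBpos : 0 < B := by positivity
  -- bound of `Wg 0 t`
  have hWtG : Wg 0 t ≤ Real.exp (2 * C1 + C3) * G := by
    have hlog : Real.log (Wg 0 t) ≤ 2 * C1 + C3 + (θ * Real.log (Wg 0 a) +
        (1 - θ) * Real.log (Wg 0 b)) := by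
      have e1 := (abs_le.mp hWt').2
      have e2 := (abs_le.mp hWa').1
      have e3 := (abs_le.mp hWb').1
      have e4 : θ * ph a ≤ θ * (Real.log (Wg 0 a) + C1) :=
        mul_le_mul_of_nonneg_left (by linarith) hθ0
      have e5 : (1 - θ) * ph b ≤ (1 - θ) * (Real.log (Wg 0 b) + C1) :=
        mul_le_mul_of_nonneg_left (by linarith) (by linarith)
      nlinarith
    have e6 : Real.exp (2 * C1 + C3) * G = Real.exp (2 * C1 + C3 + (θ * Real.log (Wg 0 a) +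
        (1 - θ) * Real.log (Wg 0 b))) := by
      rw [hG, Real.rpow_def_of_pos hWa, Real.rpow_def_of_pos hWb, ← Real.exp_add,
        ← Real.exp_add, mul_comm θ, mul_comm (1 - θ)]
    rw [e6, ← Real.exp_log hWt]
    exact Real.exp_le_exp.mpr hlog
  have hBle : B ≤ Ac a + Ac b := by
    have e1 := Real.geom_mean_le_arith_mean2_weighted hθ0 (by linarith : 0 ≤ 1 - θ) hAa.le hAb.le
      (by ring)
    have e2 : θ * Ac a ≤ 1 * Ac a := mul_le_mul_of_nonneg_right hθ1 hAa.le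
    have e3 : (1 - θ) * Ac b ≤ 1 * Ac b := mul_le_mul_of_nonneg_right (by linarith) hAb.le
    rw [hB]
    linarith
  set P : ℝ := ‖(⟨δ, t - a⟩ : ℂ)‖ with hPdef
  set Q : ℝ := ‖(⟨δ, t - b⟩ : ℂ)‖ with hQdef
  set N : ℝ := ‖(⟨1 / 2 + δ, t⟩ : ℂ)‖ with hNdef
  set Z : ℝ := ‖riemannZeta (⟨1 / 2 + δ, t⟩ : ℂ)‖ with hZdef
  have hZ0 : 0 ≤ Z := norm_nonneg _
  set T : ℝ := (3 + |t|) ^ δ with hT
  have hTpos : 0 < T := Real.rpow_pos_of_pos (by positivity) _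
  set E : ℝ := Real.exp (2 * C1 + C3) with hE
  have hEpos : 0 < E := Real.exp_pos _
  -- main inequality
  have hm : P * Q ≤ (b - a) * (N * Z) * (C2 * E * T) * (Ac a + Ac b) := by
    have e1 : Wg δ t ≤ C2 * T * (E * G) :=
      hsh.trans (mul_le_mul_of_nonneg_left hWtG (by positivity))
    have e2 : P * Q * (4 * G / B) ≤ (b - a) * (4 * N * (C2 * T * (E * G)) * Z) := by
      refine hKEY.trans ?_
      refine mul_le_mul_of_nonneg_left ?_ hba.le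
      refine mul_le_mul_of_nonneg_right ?_ hZ0
      exact mul_le_mul_of_nonneg_left e1 (by positivity)
    have e3 : P * Q * (4 * G / B) = (P * Q) * (4 * G / B) := rfl
    have e4 : P * Q ≤ (b - a) * (4 * N * (C2 * T * (E * G)) * Z) / (4 * G / B) := by
      rw [le_div_iff₀ (by positivity)]
      exact e2
    have e5 : (b - a) * (4 * N * (C2 * T * (E * G)) * Z) / (4 * G / B) =
        (b - a) * (N * Z) * (C2 * E * T) * B := by
      field_simp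
    rw [e5] at e4
    exact e4.trans (mul_le_mul_of_nonneg_left hBle (by positivity))
  rw [norm_inv, norm_mul]
  change (N * Z)⁻¹ ≤ C2 * E * T * ((b - a) / (P * Q)) * (Ac a + Ac b)
  rcases hZ0.eq_or_lt with hZ | hZ
  · rw [← hZ, mul_zero, inv_zero]
    positivity
  rw [inv_le_iff_one_le_mul₀ (by positivity)]
  have e6 : C2 * E * T * ((b - a) / (P * Q)) * (Ac a + Ac b) * (N * Z) =
      ((b - a) * (N * Z) * (C2 * E * T) * (Ac a + Ac b)) / (P * Q) := by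
    field_simp
  rw [e6, one_le_div (by positivity)]
  exact hm

end Pool.Agent.W285.WM
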